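import Pool.Agent.L7h27.EX.Stm
import Pool.Agent.L7h22.WA.Gm
import Pool.Agent.L7h22.WA.Maint

/-!
# Project EX: the Gaussian mean value (S_GMBX) and the last variable (S_GILX)
-/

set_option autoImplicit false

namespace Pool.Agent.L7h97.EX

open Finset MeasureTheory Filter Topology
open Pool.Agent.L7h67.WA (gs)
open Pool.Agent.L7h27.EX
open Pool.Agent.L7h22.WA (pow_exp gs_le_one gs_cont gs_low)

theorem s_GMBX : S_GMBX := by
  classical
  intro k ε ε' α X G₀ G B hB hMV hε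
  obtain ⟨δ, hδ, h1⟩ := hMV
  have hP : Tendsto (fun l : ℕ => (2 : ℝ) ^ l) atTop atTop :=
    tendsto_pow_atTop_atTop_of_one_lt one_lt_two
  have h2 : ∀ᶠ x : ℝ in atTop, x ^ (k - ε) *
      Real.exp (-(Real.pi / 4 * x ^ (2 * δ))) ≤ 1 :=
    (pow_exp (k - ε) (2 * δ) (Real.pi / 4) (by positivity)
      (by positivity)).eventually_le_const one_pos
  have h3 : ∀ᶠ x : ℝ in atTop, 4 * |B| ≤ x ^ δ :=
    (tendsto_rpow_atTop hδ).eventually_ge_atTop _
  have h4 : ∀ᶠ x : ℝ in atTop, 2 ≤ x ^ (ε' - ε) :=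
    (tendsto_rpow_atTop (by linarith)).eventually_ge_atTop _
  filter_upwards [h1, hP.eventually h2, hP.eventually h3, hP.eventually h4] with l e1 e2 e3 e4
  set P : ℝ := (2 : ℝ) ^ l with hPdef
  have hP1 : 1 ≤ P := one_le_pow₀ (by norm_num)
  have hP0 : 0 < P := by linarith
  set L : ℝ := P ^ δ with hL
  have hfar : ∀ p : α × α, L < |G₀ p.1 - G₀ p.2| →
      gs 1 (G p.1 - G p.2) ≤ Real.exp (-(Real.pi / 4 * P ^ (2 * δ))) := by
    intro p hp
    have h5 := hB p.1
    have h6 := hB p.2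
    have hBB := le_abs_self B
    set s := G p.1 - G p.2 with hs'
    have h7 : |G₀ p.1 - G₀ p.2| ≤ |s| + 2 * |B| := by
      have h8 : G₀ p.1 - G₀ p.2 = s - (G p.1 - G₀ p.1) + (G p.2 - G₀ p.2) := by
        rw [hs']
        ring
      rw [h8]
      refine (abs_add_le _ _).trans ?_
      have h9 := abs_sub s (G p.1 - G₀ p.1)
      linarith
    have h8 : L / 2 ≤ |s| := by linarith
    unfold gs
    apply Real.exp_le_exp.2
    rw [neg_le_neg_iff]
    have h9 : P ^ (2 * δ) = L ^ 2 := by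
      rw [hL, ← Real.rpow_natCast, ← Real.rpow_mul hP0.le]
      congr 1
      push_cast
      ring
    rw [h9]
    have h10 : (L / 2) ^ 2 ≤ s ^ 2 := by
      rw [← sq_abs s]
      apply pow_le_pow_left₀ _ h8
      rw [hL]
      positivity
    have hpi := Real.pi_pos
    rw [one_pow, div_one]
    nlinarith
  rw [← Finset.sum_product']
  have h5 : ∑ p ∈ X l ×ˢ X l, gs 1 (G p.1 - G p.2) ≤
      ∑ p ∈ X l ×ˢ X l, ((if |G₀ p.1 - G₀ p.2| ≤ L then (1 : ℝ) else 0) +
        Real.exp (-(Real.pi / 4 * P ^ (2 * δ)))) := by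
    apply Finset.sum_le_sum
    intro p _
    by_cases hp : |G₀ p.1 - G₀ p.2| ≤ L
    · rw [if_pos hp]
      have := gs_le_one 1 (G p.1 - G p.2)
      have := Real.exp_pos (-(Real.pi / 4 * P ^ (2 * δ)))
      linarith
    · rw [if_neg hp, zero_add]
      exact hfar p (not_le.1 hp)
  refine h5.trans ?_
  rw [Finset.sum_add_distrib, Finset.sum_const, nsmul_eq_mul, Finset.card_product]
  have h6 : ∑ p ∈ X l ×ˢ X l, (if |G₀ p.1 - G₀ p.2| ≤ L then (1 : ℝ) else 0) =
      (#((X l ×ˢ X l).filter fun p => |G₀ p.1 - G₀ p.2| ≤ L) : ℝ) := by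
    rw [Finset.sum_ite, Finset.sum_const_zero, add_zero, Finset.sum_const, nsmul_eq_mul, mul_one]
  rw [h6]
  have h7 := e1 ((X l ×ˢ X l).filter fun p => |G₀ p.1 - G₀ p.2| ≤ L) (Finset.filter_subset _ _)
    (fun p hp => (Finset.mem_filter.1 hp).2)
  have h8 : Real.exp (-(Real.pi / 4 * P ^ (2 * δ))) ≤ P ^ (-k + ε) := by
    have h9 : P ^ (-k + ε) = (P ^ (k - ε))⁻¹ := by
      rw [← Real.rpow_neg hP0.le]
      congr 1
      ring
    rw [h9, ← one_div, le_div_iff₀ (by positivity), mul_comm]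
    exact e2
  have h10 : P ^ (-k + ε') = P ^ (-k + ε) * P ^ (ε' - ε) := by
    rw [← Real.rpow_add hP0]
    congr 1
    ring
  have hX0 : (0 : ℝ) ≤ (#(X l) : ℝ) ^ 2 := by positivity
  have h11 : ((#(X l) * #(X l) : ℕ) : ℝ) * Real.exp (-(Real.pi / 4 * P ^ (2 * δ))) ≤
      (#(X l) : ℝ) ^ 2 * P ^ (-k + ε) := by
    push_cast
    rw [← sq]
    exact mul_le_mul_of_nonneg_left h8 hX0
  have h12 : 0 ≤ (#(X l) : ℝ) ^ 2 * P ^ (-k + ε) := by positivity
  rw [h10, ← mul_assoc]
  nlinarith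

/-- mean value inequality for a power -/
theorem pow_sub_le (c v z : ℝ) (hc : 1 ≤ c) (hz : 0 < z) (hv : 0 ≤ v) :
    z ^ c - v ^ c ≤ c * z ^ (c - 1) * (z - v) := by
  have h1 : -1 ≤ (v - z) / z := by
    rw [le_div_iff₀ hz]
    linarith
  have h2 := one_add_mul_self_le_rpow_one_add h1 hc
  have h3 : 1 + (v - z) / z = v / z := by
    field_simp
    ring
  rw [h3, Real.div_rpow hv hz.le] at h2
  have hzc : 0 < z ^ c := Real.rpow_pos_of_pos hz c
  have h4 : z ^ c = z ^ (c - 1) * z := by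
    rw [← Real.rpow_add_one hz.ne']
    congr 1
    ring
  rw [le_div_iff₀ hzc] at h2
  have h5 : (1 + c * ((v - z) / z)) * z ^ c = z ^ c + c * (v - z) * z ^ (c - 1) := by
    nth_rewrite 2 [h4]
    rw [add_mul, one_mul, h4]
    field_simp
  rw [h5] at h2
  nlinarith [h2]

theorem cont_pow (m : ℝ) (hm : 0 ≤ m) : Continuous (fun u : ℝ => u ^ m) :=
  Real.continuous_rpow_const hm

theorem s_GILX : S_GILX := by
  intro m a0 hm ha0
  have ha : (1 : ℝ) ≤ a0 := by exact_mod_cast ha0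
  set D0 : ℝ := m * (4 * (a0 : ℝ)) ^ (m - 1) + 4 with hD0
  have hD00 : 0 < D0 := by positivity
  refine ⟨Real.exp (-Real.pi) / D0, by positivity, ?_⟩
  filter_upwards [eventually_ge_atTop 1] with P hP w hw hw1 τ hτ1 hτ2
  have hP1 : (1 : ℝ) ≤ P := by exact_mod_cast hP
  have hP0 : (0 : ℝ) < P := by linarith
  have hm0 : 0 < m := by linarith
  set R : ℝ := (a0 : ℝ) * P with hR
  have hR1 : 1 ≤ R := by nlinarith
  have hτ0 : 0 ≤ τ := le_trans (by positivity) hτ1
  set u0 : ℝ := τ ^ (1 / m) with hu0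
  have hu0m : u0 ^ m = τ := by
    rw [hu0, ← Real.rpow_mul hτ0, one_div, inv_mul_cancel₀ hm0.ne', Real.rpow_one]
  have hu00 : 0 ≤ u0 := by positivity
  rw [← hu0m] at hτ1 hτ2
  have h1 : 3 / 2 * R ≤ u0 := (Real.rpow_le_rpow_iff (by positivity) hu00 hm0).1 hτ1
  have h2 : u0 ≤ 3 * R := (Real.rpow_le_rpow_iff hu00 (by positivity) hm0).1 hτ2
  have hPm : 1 ≤ (P : ℝ) ^ (m - 1) := Real.one_le_rpow hP1 (by linarith)
  set D : ℝ := D0 * (P : ℝ) ^ (m - 1) with hD
  have hD4 : 4 ≤ D0 := by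
    rw [hD0]
    have : 0 ≤ m * (4 * (a0 : ℝ)) ^ (m - 1) := by positivity
    linarith
  have hDpos : 0 < D := by positivity
  have hD4' : 4 ≤ D := by nlinarith
  have hwD : w / D ≤ 1 / 4 := by
    rw [div_le_iff₀ hDpos]
    nlinarith
  have hwD0 : 0 < w / D := by positivity
  have hc1 : (((a0 * P : ℕ)) : ℝ) = R := by push_cast; rfl
  have hc2 : (((4 * (a0 * P) : ℕ)) : ℝ) = 4 * R := by push_cast; rfl
  have hlow : Real.exp (-Real.pi) * (w / D) ≤ GIg (fun u => u ^ m) a0 P w τ := by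
    unfold GIg
    rw [hc1, hc2, ← hu0m]
    have hc : Continuous (fun u : ℝ => gs w (u ^ m - u0 ^ m)) :=
      (gs_cont w).comp ((cont_pow m hm0.le).sub continuous_const)
    have h4 : ∫ u in u0..(u0 + w / D), Real.exp (-Real.pi) ≤
        ∫ u in u0..(u0 + w / D), gs w (u ^ m - u0 ^ m) := by
      apply intervalIntegral.integral_mono_on (by linarith) (by simp) (hc.intervalIntegrable _ _)
      intro u hu
      apply gs_low hw
      have h5 : u0 ^ m ≤ u ^ m := Real.rpow_le_rpow hu00 hu.1 hm0.le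
      rw [abs_of_nonneg (by linarith)]
      have hu4 : u ≤ 4 * R := by linarith [hu.2]
      have hupos : 0 < u := by linarith [hu.1]
      have h6 := pow_sub_le m u0 u hm.le hupos hu00
      have h7 : m * u ^ (m - 1) ≤ D := by
        have h8 : u ^ (m - 1) ≤ (4 * R) ^ (m - 1) :=
          Real.rpow_le_rpow hupos.le hu4 (by linarith)
        have h9 : (4 * R) ^ (m - 1) = (4 * (a0 : ℝ)) ^ (m - 1) * (P : ℝ) ^ (m - 1) := by
          rw [hR, ← mul_assoc, Real.mul_rpow (by positivity) hP0.le]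
        calc m * u ^ (m - 1) ≤ m * ((4 * (a0 : ℝ)) ^ (m - 1) * (P : ℝ) ^ (m - 1)) := by
              rw [← h9]
              exact mul_le_mul_of_nonneg_left h8 hm0.le
          _ = (m * (4 * (a0 : ℝ)) ^ (m - 1)) * (P : ℝ) ^ (m - 1) := by ring
          _ ≤ D0 * (P : ℝ) ^ (m - 1) := by
              apply mul_le_mul_of_nonneg_right _ (by positivity)
              rw [hD0]
              linarith
      have h10 : u - u0 ≤ w / D := by linarith [hu.2]
      calc u ^ m - u0 ^ m ≤ m * u ^ (m - 1) * (u - u0) := h6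
        _ ≤ D * (w / D) := by
            apply mul_le_mul h7 h10 (by linarith [hu.1]) hDpos.le
        _ = w := by field_simp
    rw [intervalIntegral.integral_const] at h4
    have h5 : (u0 + w / D - u0) • Real.exp (-Real.pi) = Real.exp (-Real.pi) * (w / D) := by
      rw [smul_eq_mul]
      ring
    rw [h5] at h4
    refine h4.trans ?_
    apply intervalIntegral.integral_mono_interval (by linarith) (by linarith) (by linarith)
    · filter_upwards with u
      unfold gs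
      positivity
    · exact hc.intervalIntegrable _ _
  refine le_trans (le_of_eq ?_) hlow
  rw [hD]
  field_simp

end Pool.Agent.L7h97.EX
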