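import Pool.Agent.L7h27.EX.Stm
import Pool.Agent.L7h22.WA.Fin2
import Pool.Agent.L7h97.EX.Gmb

/-!
# Project EX: almost all integers (S_FINE2X)
-/

set_option autoImplicit false

namespace Pool.Agent.L7h97.EX

open Finset MeasureTheory Filter Topology
open Pool.Agent.L7h67.WA (gs)
open Pool.Agent.L7h27.EX
open Pool.Agent.L7h22.WA (pow_exp gs_small mb_le compare)

/-- one block -/
theorem block1 (hcore : S_COREX) (m : ℝ) (hm : 1 < m) (σ : ℝ) (hσ : 0 < σ)
    (α : Type) (XA : ℕ → Finset α) (GA : α → ℝ)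
    (hXne : ∀ᶠ l : ℕ in atTop, (XA l).Nonempty)
    (hXg : ∀ᶠ l : ℕ in atTop, ∑ x ∈ XA l, ∑ x' ∈ XA l, gs 1 (GA x - GA x') ≤
      (#(XA l) : ℝ) ^ 2 * ((2 : ℝ) ^ l) ^ (-m + σ / 4))
    (a0 : ℕ) (ha0 : 1 ≤ a0)
    (hsup : ∀ᶠ P : ℕ in atTop, ∀ β : ℝ, |β| ≤ (P : ℝ) ^ σ →
      ‖WSg (fun u => u ^ m) a0 P β - WIg (fun u => u ^ m) a0 P β‖ ≤ (P : ℝ) ^ (1 - σ))
    (M : ℕ) (κ : ℝ) :
    ∀ᶠ l : ℕ in atTop, ∀ Y : Finset ℕ,
      (∀ n ∈ Y, ∀ x ∈ XA l, (3 / 2 * ((a0 : ℝ) * (2 : ℝ) ^ l)) ^ m ≤ (n : ℝ) + κ - GA x ∧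
        (n : ℝ) + κ - GA x ≤ (3 * ((a0 : ℝ) * (2 : ℝ) ^ l)) ^ m) →
      (∀ n ∈ Y, ∀ x ∈ XA l, ∀ z : ℕ, M ≤ z →
        ((2 : ℝ) ^ l) ^ (-(σ / 8)) ≤ |GA x + (z : ℝ) ^ m - (n + κ)|) →
      (#Y : ℝ) ≤ ((2 : ℝ) ^ l) ^ (m - σ) := by
  obtain ⟨c0, hc0, hmain⟩ := s_GILX m a0 hm ha0
  have hgm := hXg
  have hP : Tendsto (fun l : ℕ => (2 : ℝ) ^ l) atTop atTop :=
    tendsto_pow_atTop_atTop_of_one_lt one_lt_two
  have hPn : Tendsto (fun l : ℕ => 2 ^ l) atTop (atTop : Filter ℕ) :=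
    tendsto_pow_atTop_atTop_of_one_lt (one_lt_two : (1 : ℕ) < 2)
  have ha0' : (1 : ℝ) ≤ a0 := by exact_mod_cast ha0
  -- the error terms
  have e1 : ∀ᶠ x : ℝ in atTop, (3 * a0 / (c0 / 4)) *
      (x ^ (m + σ / 4) * Real.exp (-(Real.pi * x ^ (σ / 4)))) ≤ 1 := by
    have h3 := (pow_exp (m + σ / 4) (σ / 4) Real.pi (by positivity) Real.pi_pos).const_mul
      (3 * (a0 : ℝ) / (c0 / 4))
    rw [mul_zero] at h3
    exact h3.eventually_le_const one_pos
  have e2 : ∀ᶠ x : ℝ in atTop, (12 * a0 / (c0 / 4)) *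
      (x ^ (m + σ / 4) * Real.exp (-(Real.pi / 2 * x ^ (3 * σ / 2)))) ≤ 1 := by
    have h3 := (pow_exp (m + σ / 4) (3 * σ / 2) (Real.pi / 2) (by positivity)
      (by positivity)).const_mul (12 * (a0 : ℝ) / (c0 / 4))
    rw [mul_zero] at h3
    exact h3.eventually_le_const one_pos
  have e3 : ∀ᶠ x : ℝ in atTop, 16 / c0 ^ 2 ≤ x ^ (σ / 4) :=
    (tendsto_rpow_atTop (by positivity)).eventually_ge_atTop _
  filter_upwards [hgm, hPn.eventually hmain, hPn.eventually hsup, hP.eventually e1,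
    hP.eventually e2, hP.eventually e3, hPn.eventually (eventually_ge_atTop (max M 1)), hXne]
    with l g1 g2 g3 g4 g5 g6 g7 g8 Y hY1 hY2
  have hcast : (((2 ^ l : ℕ)) : ℝ) = (2 : ℝ) ^ l := by push_cast; rfl
  simp only [hcast] at g2 g3
  set P : ℝ := (2 : ℝ) ^ l with hPdef
  have hP1 : 1 ≤ P := one_le_pow₀ (by norm_num)
  have hP0 : 0 < P := by linarith
  set w : ℝ := P ^ (-(σ / 4)) with hw
  have hw0 : 0 < w := Real.rpow_pos_of_pos hP0 _
  have hw1 : w ≤ 1 := Real.rpow_le_one_of_one_le_of_nonpos hP1 (by linarith)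
  rcases Y.eq_empty_or_nonempty with hYe | hYne
  · rw [hYe, Finset.card_empty, Nat.cast_zero]
    positivity
  have hYc : (1 : ℝ) ≤ #Y := by exact_mod_cast Finset.card_pos.2 hYne
  have hYc0 : (0 : ℝ) < #Y := by linarith
  set n : ℝ := (#(XA l) : ℝ) with hn
  have hn1 : (1 : ℝ) ≤ n := by
    rw [hn]
    exact_mod_cast Finset.card_pos.2 g8
  have hn0 : 0 < n := by linarith
  -- the core inequality
  have hc := hcore α ℕ (XA l) Y GA
    (fun n => -((n : ℝ) + κ)) (fun u => u ^ m) a0 (2 ^ l) w (P ^ σ) (P ^ (1 - σ))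
    (n ^ 2 * P ^ (-m + σ / 4))
    (4 * #Y) 0 (cont_pow m (by linarith)) hw0 hw1 (by positivity) (by positivity) g3 g1 (mb_le Y κ)
  -- the main term
  have hPk1 : 0 < P ^ (m - 1) := Real.rpow_pos_of_pos hP0 _
  have hmainY : n * (#Y * (c0 * w / P ^ (m - 1))) ≤ ∑ x ∈ XA l, ∑ y ∈ Y,
      GIg (fun u => u ^ m) a0 (2 ^ l) w (0 - GA x - -((y : ℝ) + κ)) := by
    have h1 : ∀ x ∈ XA l, ∀ y ∈ Y, c0 * w / P ^ (m - 1) ≤
        GIg (fun u => u ^ m) a0 (2 ^ l) w (0 - GA x - -((y : ℝ) + κ)) := by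
      intro x hx y hy
      obtain ⟨h2, h3⟩ := hY1 y hy x hx
      have h4 : 0 - GA x - -((y : ℝ) + κ) = (y : ℝ) + κ - GA x := by ring
      rw [h4]
      exact g2 w hw0 hw1 _ h2 h3
    calc n * (#Y * (c0 * w / P ^ (m - 1))) = ∑ x ∈ XA l, ∑ y ∈ Y, c0 * w / P ^ (m - 1) := by
          rw [Finset.sum_const, nsmul_eq_mul, Finset.sum_const, nsmul_eq_mul]
      _ ≤ _ := Finset.sum_le_sum fun x hx => Finset.sum_le_sum fun y hy => h1 x hx y hy
  -- the sum
  have hsumY : ∑ x ∈ XA l, ∑ y ∈ Y,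
      GSg (fun u => u ^ m) a0 (2 ^ l) w (0 - GA x - -((y : ℝ) + κ)) ≤
      n * (#Y * ((3 * (a0 * P)) * Real.exp (-(Real.pi * P ^ (σ / 4))))) := by
    have h1 : ∀ x ∈ XA l, ∀ y ∈ Y,
        GSg (fun u => u ^ m) a0 (2 ^ l) w (0 - GA x - -((y : ℝ) + κ)) ≤
        (3 * (a0 * P)) * Real.exp (-(Real.pi * P ^ (σ / 4))) := by
      intro x hx y hy
      unfold GSg
      have h2 : ∀ z ∈ Ioc (a0 * 2 ^ l) (4 * (a0 * 2 ^ l)),
          gs w ((z : ℝ) ^ m - (0 - GA x - -((y : ℝ) + κ))) ≤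
          Real.exp (-(Real.pi * P ^ (σ / 4))) := by
        intro z hz
        rw [Finset.mem_Ioc] at hz
        have hMl : M ≤ 2 ^ l := (le_max_left _ _).trans g7
        have hzM : M ≤ z := by
          have h4 : 2 ^ l ≤ a0 * 2 ^ l := Nat.le_mul_of_pos_left _ ha0
          omega
        have h3 := hY2 y hy x hx z hzM
        have h4 : (z : ℝ) ^ m - (0 - GA x - -((y : ℝ) + κ)) =
            GA x + (z : ℝ) ^ m - (y + κ) := by ring
        rw [h4]
        refine (gs_small hw0 (by positivity) h3).trans (le_of_eq ?_)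
        congr 3
        rw [hw, ← Real.rpow_sub hP0, ← Real.rpow_natCast, ← Real.rpow_mul hP0.le]
        congr 1
        push_cast
        ring
      refine (Finset.sum_le_sum h2).trans (le_of_eq ?_)
      rw [Finset.sum_const, nsmul_eq_mul, Nat.card_Ioc]
      congr 1
      have h5 : 4 * (a0 * 2 ^ l) - a0 * 2 ^ l = 3 * (a0 * 2 ^ l) := by omega
      rw [h5]
      push_cast
      rfl
    calc _ ≤ ∑ x ∈ XA l, ∑ y ∈ Y, (3 * (a0 * P)) * Real.exp (-(Real.pi * P ^ (σ / 4))) :=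
          Finset.sum_le_sum fun x hx => Finset.sum_le_sum fun y hy => h1 x hx y hy
      _ = _ := by
          rw [Finset.sum_const, nsmul_eq_mul, Finset.sum_const, nsmul_eq_mul]
  -- together
  have hdist : ∑ x ∈ XA l, ∑ y ∈ Y,
      (GSg (fun u => u ^ m) a0 (2 ^ l) w (0 - GA x - -((y : ℝ) + κ)) -
        GIg (fun u => u ^ m) a0 (2 ^ l) w (0 - GA x - -((y : ℝ) + κ))) =
      ∑ x ∈ XA l, ∑ y ∈ Y, GSg (fun u => u ^ m) a0 (2 ^ l) w (0 - GA x - -((y : ℝ) + κ)) -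
      ∑ x ∈ XA l, ∑ y ∈ Y, GIg (fun u => u ^ m) a0 (2 ^ l) w (0 - GA x - -((y : ℝ) + κ)) := by
    rw [← Finset.sum_sub_distrib]
    apply Finset.sum_congr rfl
    intro x _
    rw [Finset.sum_sub_distrib]
  rw [hdist] at hc
  have hc2 := (abs_le.1 hc).1
  -- the error terms
  have hwP : w * P ^ (σ / 4) = 1 := by
    rw [hw, ← Real.rpow_add hP0]
    simp
  have hPkσ : P ^ (m + σ / 4) = P ^ (m - 1) * P * P ^ (σ / 4) := by
    have h1 : P ^ (m - 1) * P = P ^ m := by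
      rw [← Real.rpow_add_one hP0.ne']
      congr 1
      ring
    rw [Real.rpow_add hP0, h1]
  have small : ∀ (c ex : ℝ), 0 ≤ c → 0 ≤ ex → c / (c0 / 4) * (P ^ (m + σ / 4) * ex) ≤ 1 →
      c * P * ex ≤ c0 / 4 * (w / P ^ (m - 1)) := by
    intro c ex hc' hex h
    rw [hPkσ] at h
    have h3 : c * P * ex = (c0 / 4 * (w / P ^ (m - 1))) *
        (c / (c0 / 4) * (P ^ (m - 1) * P * P ^ (σ / 4) * ex)) := by
      have h4 : (c0 / 4 * (w / P ^ (m - 1))) *
        (c / (c0 / 4) * (P ^ (m - 1) * P * P ^ (σ / 4) * ex)) = c * P * ex * (w * P ^ (σ / 4)) := by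
        field_simp
      rw [h4, hwP, mul_one]
    rw [h3]
    exact mul_le_of_le_one_right (by positivity) h
  have t1 : n * (#Y * ((3 * (a0 * P)) * Real.exp (-(Real.pi * P ^ (σ / 4))))) ≤
      n * (#Y * (c0 / 4 * (w / P ^ (m - 1)))) := by
    apply mul_le_mul_of_nonneg_left _ hn0.le
    apply mul_le_mul_of_nonneg_left _ hYc0.le
    have h1 := small (3 * a0) _ (by positivity) (Real.exp_pos _).le g4
    linarith
  have t2 : 12 * (n * #Y * (a0 * ((2 ^ l : ℕ) : ℝ))) *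
      Real.exp (-(Real.pi * w ^ 2 * (P ^ σ) ^ 2 / 2)) ≤ n * (#Y * (c0 / 4 * (w / P ^ (m - 1)))) := by
    rw [hcast]
    have hexp : Real.pi * w ^ 2 * (P ^ σ) ^ 2 / 2 = Real.pi / 2 * P ^ (3 * σ / 2) := by
      have h3 : w ^ 2 * (P ^ σ) ^ 2 = P ^ (3 * σ / 2) := by
        rw [← mul_pow, hw, ← Real.rpow_add hP0, ← Real.rpow_natCast, ← Real.rpow_mul hP0.le]
        congr 1
        push_cast
        ring
      calc Real.pi * w ^ 2 * (P ^ σ) ^ 2 / 2 = Real.pi / 2 * (w ^ 2 * (P ^ σ) ^ 2) := by ring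
        _ = _ := by rw [h3]
    rw [hexp]
    have h1 := small (12 * a0) _ (by positivity) (Real.exp_pos _).le g5
    calc 12 * (n * #Y * (a0 * P)) * Real.exp (-(Real.pi / 2 * P ^ (3 * σ / 2)))
        = n * (#Y * (12 * a0 * P * Real.exp (-(Real.pi / 2 * P ^ (3 * σ / 2))))) := by ring
      _ ≤ n * (#Y * (c0 / 4 * (w / P ^ (m - 1)))) := by
          apply mul_le_mul_of_nonneg_left _ hn0.le
          exact mul_le_mul_of_nonneg_left h1 hYc0.le
  have hsqn : Real.sqrt (n ^ 2 * P ^ (-m + σ / 4) * (4 * #Y)) =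
      n * Real.sqrt (P ^ (-m + σ / 4) * (4 * #Y)) := by
    rw [mul_assoc, Real.sqrt_mul (by positivity), Real.sqrt_sq hn0.le]
  rw [hsqn] at hc2
  have hfin : c0 / 2 * (#Y * (w / P ^ (m - 1))) ≤
      P ^ (1 - σ) * Real.sqrt (P ^ (-m + σ / 4) * (4 * #Y)) := by
    have h1 : n * (c0 / 2 * (#Y * (w / P ^ (m - 1)))) ≤
        n * (P ^ (1 - σ) * Real.sqrt (P ^ (-m + σ / 4) * (4 * #Y))) := by
      have h2 : n * (#Y * (c0 * w / P ^ (m - 1))) =
          n * (c0 / 2 * (#Y * (w / P ^ (m - 1)))) + n * (#Y * (c0 / 4 * (w / P ^ (m - 1)))) +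
            n * (#Y * (c0 / 4 * (w / P ^ (m - 1)))) := by ring
      rw [h2] at hmainY
      have h3 : P ^ (1 - σ) * (n * Real.sqrt (P ^ (-m + σ / 4) * (4 * #Y))) =
          n * (P ^ (1 - σ) * Real.sqrt (P ^ (-m + σ / 4) * (4 * #Y))) := by ring
      rw [h3] at hc2
      linarith
    exact le_of_mul_le_mul_left h1 hn0
  -- squares
  have hsq : (c0 / 2 * (#Y * (w / P ^ (m - 1)))) ^ 2 ≤
      (P ^ (1 - σ)) ^ 2 * (P ^ (-m + σ / 4) * (4 * #Y)) := by
    have h1 := pow_le_pow_left₀ (by positivity) hfin 2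
    rw [mul_pow (P ^ (1 - σ)), Real.sq_sqrt (by positivity)] at h1
    exact h1
  have hq : (#Y : ℝ) * (c0 ^ 2 / 16 * (w / P ^ (m - 1)) ^ 2) ≤
      (P ^ (1 - σ)) ^ 2 * P ^ (-m + σ / 4) := by
    have h1 : (4 * (#Y : ℝ)) * (#Y * (c0 ^ 2 / 16 * (w / P ^ (m - 1)) ^ 2)) ≤
        (4 * (#Y : ℝ)) * ((P ^ (1 - σ)) ^ 2 * P ^ (-m + σ / 4)) := by
      calc (4 * (#Y : ℝ)) * (#Y * (c0 ^ 2 / 16 * (w / P ^ (m - 1)) ^ 2))
          = (c0 / 2 * (#Y * (w / P ^ (m - 1)))) ^ 2 := by ring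
        _ ≤ _ := hsq
        _ = _ := by ring
    exact le_of_mul_le_mul_left h1 (by positivity)
  have hwk : (w / P ^ (m - 1)) ^ 2 = P ^ (-(σ / 2) - 2 * (m - 1)) := by
    rw [hw, ← Real.rpow_sub hP0, ← Real.rpow_natCast, ← Real.rpow_mul hP0.le]
    congr 1
    push_cast
    ring
  have hpow : (P ^ (1 - σ)) ^ 2 * P ^ (-m + σ / 4) =
      P ^ (m - 5 * σ / 4) * (w / P ^ (m - 1)) ^ 2 := by
    rw [hwk, ← Real.rpow_natCast, ← Real.rpow_mul hP0.le, ← Real.rpow_add hP0,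
      ← Real.rpow_add hP0]
    congr 1
    push_cast
    ring
  rw [hpow] at hq
  have hq2 : (#Y : ℝ) * (c0 ^ 2 / 16) ≤ P ^ (m - 5 * σ / 4) := by
    have h1 : 0 < (w / P ^ (m - 1)) ^ 2 := by positivity
    have h2 : ((#Y : ℝ) * (c0 ^ 2 / 16)) * (w / P ^ (m - 1)) ^ 2 ≤
        P ^ (m - 5 * σ / 4) * (w / P ^ (m - 1)) ^ 2 := by linarith
    exact le_of_mul_le_mul_right h2 h1
  have hq3 : (#Y : ℝ) ≤ 16 / c0 ^ 2 * P ^ (m - 5 * σ / 4) := by
    rw [div_mul_eq_mul_div, le_div_iff₀ (by positivity)]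
    linarith
  refine hq3.trans ?_
  have h1 : P ^ (m - σ) = P ^ (σ / 4) * P ^ (m - 5 * σ / 4) := by
    rw [← Real.rpow_add hP0]
    congr 1
    ring
  rw [h1]
  exact mul_le_mul_of_nonneg_right g6 (by positivity)

/-- gaps between the values -/
theorem gap (m : ℝ) (hm : 1 < m) (x y : ℝ) (hx : 1 ≤ x) (hxy : x ≤ y) :
    x ^ (m - 1) * (y - x) ≤ y ^ m - x ^ m := by
  have h1 := pow_sub_le m y x hm.le (by linarith) (by linarith)
  have h2 : 0 ≤ x ^ (m - 1) * (y - x) :=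
    mul_nonneg (Real.rpow_nonneg (by linarith) _) (by linarith)
  nlinarith

/-- [WB-FINE2] -/
theorem s_FINE2X (hcore : S_COREX) : S_FINE2X := by
  classical
  intro m σ hm hσ hσ1 hS
  have hk0 : (0 : ℝ) < m := by linarith
  set θ : ℝ := σ / m with hθ
  have hθ0 : 0 < θ := by positivity
  have hθ1 : θ ≤ 1 := by
    rw [hθ, div_le_one hk0]
    linarith
  refine ⟨θ / 32, by positivity, ?_⟩
  intro α XA GA hblk M κ
  obtain ⟨⟨C', hC'⟩, hXne, hXg⟩ := hblk
  set C : ℝ := |C'| with hCdef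
  have hC0 : 0 ≤ C := abs_nonneg _
  have hC : ∀ᶠ l : ℕ in atTop, ∀ x ∈ XA l, |GA x| ≤ C * ((2 : ℝ) ^ l) ^ m := by
    filter_upwards [hC'] with l hl x hx
    exact (hl x hx).trans (mul_le_mul_of_nonneg_right (le_abs_self _) (by positivity))
  have hgap := gap m hm
  -- the integer `A`
  obtain ⟨A, hA⟩ := exists_nat_ge (max 1 (2 * C))
  have hA1 : (1 : ℝ) ≤ A := (le_max_left _ _).trans hA
  have hA1' : 1 ≤ A := by exact_mod_cast hA1
  have hAC : 2 * C ≤ A := (le_max_right _ _).trans hA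
  have hA0 : (0 : ℝ) < A := by linarith
  have hP : Tendsto (fun l : ℕ => (2 : ℝ) ^ l) atTop atTop :=
    tendsto_pow_atTop_atTop_of_one_lt one_lt_two
  -- gaps
  have hgap2 : ∀ l : ℕ, ∀ s t : ℝ, 1 ≤ s → s + 1 / 2 ≤ t →
      C * ((2 : ℝ) ^ l) ^ m ≤ (t * (A * (2 : ℝ) ^ l)) ^ m - (s * (A * (2 : ℝ) ^ l)) ^ m := by
    intro l s t hs hst
    set P : ℝ := (2 : ℝ) ^ l with hPd
    have hP1 : 1 ≤ P := one_le_pow₀ (by norm_num)
    have hP0 : 0 < P := by linarith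
    have hAP : P ≤ A * P := by nlinarith
    have h1 := hgap (s * (A * P)) (t * (A * P)) (by nlinarith) (by nlinarith)
    refine le_trans ?_ h1
    have h2 : (A * P) ^ (m - 1) ≤ (s * (A * P)) ^ (m - 1) :=
      Real.rpow_le_rpow (by positivity) (by nlinarith) (by linarith)
    have h3 : P ^ (m - 1) ≤ (A * P) ^ (m - 1) := Real.rpow_le_rpow hP0.le hAP (by linarith)
    have h4 : 1 / 2 * (A * P) ≤ t * (A * P) - s * (A * P) := by nlinarith
    have h5 : P ^ m = P ^ (m - 1) * P := by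
      rw [← Real.rpow_add_one hP0.ne']
      congr 1
      ring
    calc C * P ^ m = (C * P) * P ^ (m - 1) := by rw [h5]; ring
      _ ≤ (A / 2 * P) * P ^ (m - 1) := by
          apply mul_le_mul_of_nonneg_right _ (by positivity)
          nlinarith
      _ = P ^ (m - 1) * (1 / 2 * (A * P)) := by ring
      _ ≤ (s * (A * P)) ^ (m - 1) * (t * (A * P) - s * (A * P)) := by
          apply mul_le_mul _ h4 (by positivity) (by positivity)
          exact (h3.trans h2)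
  -- the two blocks
  have hb1 := block1 hcore m hm σ hσ α XA GA hXne hXg (2 * A) (by omega)
    (hS (2 * A) (by omega)) M κ
  have hb2 := block1 hcore m hm σ hσ α XA GA hXne hXg (3 * A) (by omega)
    (hS (3 * A) (by omega)) M κ
  -- the scale
  set V : ℝ → ℝ := fun s => (s * (A : ℝ)) ^ m with hV
  have hVA : ∀ (s : ℝ) (l : ℕ), V (s * (2 : ℝ) ^ l) = (s * (A * (2 : ℝ) ^ l)) ^ m := by
    intro s l
    show (s * (2 : ℝ) ^ l * (A : ℝ)) ^ m = _
    rw [mul_assoc, mul_comm ((2 : ℝ) ^ l)]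
  set v : ℝ := (A : ℝ) ^ m with hv
  have hv0 : 0 < v := by positivity
  obtain ⟨l0, hl0'⟩ := eventually_atTop.1 (hb1.and (hb2.and (hC.and
    (eventually_ge_atTop M))))
  have hgr : ∀ l, l0 ≤ l → v / 2 * ((2 : ℝ) ^ l) ^ m ≤ V (7 / 2 * (2 : ℝ) ^ l) ∧
      V (7 / 2 * (2 : ℝ) ^ l) ≤ 2 * v * (7 / 2) ^ m * ((2 : ℝ) ^ l) ^ m := by
    intro l hl
    have h1 : V (7 / 2 * (2 : ℝ) ^ l) = v * (7 / 2) ^ m * ((2 : ℝ) ^ l) ^ m := by
      show (7 / 2 * (2 : ℝ) ^ l * (A : ℝ)) ^ m = _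
      rw [Real.mul_rpow (by positivity) hA0.le, Real.mul_rpow (by positivity) (by positivity)]
      ring
    have h2 : (1 : ℝ) ≤ (7 / 2 : ℝ) ^ m := Real.one_le_rpow (by norm_num) hk0.le
    have h3 : 0 < v * ((2 : ℝ) ^ l) ^ m := by positivity
    rw [h1]
    constructor
    · nlinarith
    · nlinarith
  -- constants
  set C3 : ℝ := (1 + |κ|) / (v / 2) + 1 with hC3
  have hC30 : 0 < C3 := by positivity
  set C2 : ℝ := 2 * v * (7 / 2) ^ m * 2 ^ m with hC2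
  have hC20 : 0 ≤ C2 := by positivity
  have hcmp := (compare (|κ| + 1) C2 C3 θ hC20 hC30 hθ0 hθ1)
  have hcmp2 : ∀ᶠ N : ℝ in atTop, 2 ≤ N ^ (θ / 32) :=
    (tendsto_rpow_atTop (by positivity)).eventually_ge_atTop _
  have hcast : Tendsto (fun N : ℕ => (N : ℝ)) atTop atTop := tendsto_natCast_atTop_atTop
  filter_upwards [hcast.eventually hcmp, hcast.eventually_gt_atTop (((2 : ℝ) ^ l0) ^ (2 * m)),
    eventually_ge_atTop 1, hcast.eventually hcmp2] with N hN1 hN2 hN3 hN4 Z hZ1 hZ2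
  have hN1' : (1 : ℝ) ≤ N := by exact_mod_cast hN3
  have hN0 : (0 : ℝ) < N := by linarith
  -- the first scale
  have hex : ∃ l : ℕ, (N : ℝ) ≤ ((2 : ℝ) ^ l) ^ (2 * m) := by
    refine ⟨N, ?_⟩
    have h1 : (N : ℝ) ≤ 2 ^ N := by exact_mod_cast Nat.lt_two_pow_self.le
    refine h1.trans ?_
    have h2 : ((2 : ℝ) ^ N) ^ (1 : ℝ) ≤ ((2 : ℝ) ^ N) ^ (2 * m) :=
      Real.rpow_le_rpow_of_exponent_le (one_le_pow₀ (by norm_num)) (by linarith)
    rwa [Real.rpow_one] at h2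
  set l1 := Nat.find hex with hl1
  have hl1a : (N : ℝ) ≤ ((2 : ℝ) ^ l1) ^ (2 * m) := Nat.find_spec hex
  have hl1b : l0 < l1 := by
    by_contra hcon
    push Not at hcon
    have h1 : ((2 : ℝ) ^ l1) ^ (2 * m) ≤ ((2 : ℝ) ^ l0) ^ (2 * m) :=
      Real.rpow_le_rpow (by positivity) (pow_le_pow_right₀ (by norm_num) hcon) (by linarith)
    linarith
  have hl1c : ((2 : ℝ) ^ (l1 - 1)) ^ (2 * m) < N := by
    have h1 := Nat.find_min hex (m := l1 - 1) (by omega)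
    exact not_le.1 h1
  have hPl1 : ((2 : ℝ) ^ l1) ^ m ≤ 2 ^ m * (N : ℝ) ^ (1 / 2 : ℝ) := by
    have h1 : (2 : ℝ) ^ l1 = 2 * 2 ^ (l1 - 1) := by
      rw [← pow_succ']
      congr 1
      omega
    rw [h1, Real.mul_rpow (by norm_num) (by positivity)]
    apply mul_le_mul_of_nonneg_left _ (by positivity)
    have h2 : (((2 : ℝ) ^ (l1 - 1)) ^ m) ^ 2 ≤ N := by
      rw [← Real.rpow_natCast, ← Real.rpow_mul (by positivity), mul_comm m]
      push_cast
      exact hl1c.le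
    rw [← Real.sqrt_eq_rpow]
    exact Real.le_sqrt_of_sq_le h2
  -- the blocks
  set L : ℕ := ⌊2 * Real.log (C3 * N)⌋₊ + 1 with hL
  set Y : ℕ → Finset ℕ := fun l => Z.filter (fun n => l1 ≤ l ∧
    V (7 / 2 * (2 : ℝ) ^ l) ≤ n + κ ∧ (n : ℝ) + κ ≤ V (7 * (2 : ℝ) ^ l)) with hY
  -- members of a block
  have hmem : ∀ l n, n ∈ Z → l1 ≤ l → V (7 / 2 * (2 : ℝ) ^ l) ≤ n + κ →
      ((2 : ℝ) ^ l) ^ m ≤ C3 * N := by
    intro l n hn hl h1
    have h2 := (hgr l (by omega)).1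
    have h3 : (n : ℝ) ≤ N := by exact_mod_cast hZ1 n hn
    have h4 : (n : ℝ) + κ ≤ (1 + |κ|) * N := by
      have := le_abs_self κ
      nlinarith [abs_nonneg κ]
    have h5 : v / 2 * ((2 : ℝ) ^ l) ^ m ≤ (1 + |κ|) * N := by linarith
    have h6 : ((2 : ℝ) ^ l) ^ m ≤ (1 + |κ|) / (v / 2) * N := by
      rw [div_mul_eq_mul_div, le_div_iff₀ (by positivity)]
      linarith
    rw [hC3]
    linarith
  have hYb : ∀ l, (#(Y l) : ℝ) ≤ 2 * (C3 * N) ^ (1 - θ) := by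
    intro l
    rcases (Y l).eq_empty_or_nonempty with he | ⟨n0, hn0⟩
    · rw [he, Finset.card_empty, Nat.cast_zero]
      positivity
    · rw [hY] at hn0
      simp only [mem_filter] at hn0
      obtain ⟨hn1, hn2, hn3, hn4⟩ := hn0
      have hpow := hmem l n0 hn1 hn2 hn3
      have hP0 : (0 : ℝ) < 2 ^ l := by positivity
      obtain ⟨hq1, hq2, hq3, hq6⟩ := hl0' l (by omega)
      have hlow : ∀ n ∈ Y l, ∀ x ∈ XA l, ∀ z : ℕ, M ≤ z →
          ((2 : ℝ) ^ l) ^ (-(σ / 8)) ≤ |GA x + (z : ℝ) ^ m - (n + κ)| := by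
        intro n hn x hx z hz
        rw [hY] at hn
        simp only [mem_filter] at hn
        refine le_trans ?_ (hZ2 n hn.1 l hq6 x hx z hz)
        have h1 : (N : ℝ) ≤ ((2 : ℝ) ^ l) ^ (2 * m) := hl1a.trans
          (Real.rpow_le_rpow (by positivity) (pow_le_pow_right₀ (by norm_num) hn2) (by linarith))
        have hP1 : (1 : ℝ) ≤ 2 ^ l := one_le_pow₀ (by norm_num)
        calc ((2 : ℝ) ^ l) ^ (-(σ / 8)) ≤ ((2 : ℝ) ^ l) ^ (-(σ / 16)) :=
              Real.rpow_le_rpow_of_exponent_le hP1 (by linarith)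
          _ = (((2 : ℝ) ^ l) ^ (2 * m)) ^ (-(θ / 32)) := by
              rw [← Real.rpow_mul hP0.le]
              congr 1
              rw [hθ]
              field_simp
              ring
          _ ≤ (N : ℝ) ^ (-(θ / 32)) :=
              Real.rpow_le_rpow_of_nonpos hN0 h1 (by linarith)
      -- two halves
      obtain ⟨S1, hS1⟩ : ∃ S1 : Finset ℕ, S1 = (Y l).filter
        (fun n : ℕ => (n : ℝ) + κ ≤ V (11 / 2 * (2 : ℝ) ^ l)) := ⟨_, rfl⟩
      obtain ⟨S2, hS2⟩ : ∃ S2 : Finset ℕ, S2 = (Y l).filter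
        (fun n : ℕ => V (5 * (2 : ℝ) ^ l) ≤ (n : ℝ) + κ) := ⟨_, rfl⟩
      have hm1 : ∀ n, n ∈ S1 ↔ n ∈ Y l ∧ (n : ℝ) + κ ≤ V (11 / 2 * (2 : ℝ) ^ l) := by
        intro n
        rw [hS1]
        exact Finset.mem_filter
      have hm2 : ∀ n, n ∈ S2 ↔ n ∈ Y l ∧ V (5 * (2 : ℝ) ^ l) ≤ (n : ℝ) + κ := by
        intro n
        rw [hS2]
        exact Finset.mem_filter
      have hhalf : Y l ⊆ S1 ∪ S2 := by
        intro n hn
        rw [mem_union, hm1, hm2]
        by_cases h : (n : ℝ) + κ ≤ V (11 / 2 * (2 : ℝ) ^ l)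
        · exact Or.inl ⟨hn, h⟩
        · right
          refine ⟨hn, ?_⟩
          push Not at h
          have h1 := hgap2 l 5 (11 / 2) (by norm_num) (by norm_num)
          have h2 : 0 ≤ C * ((2 : ℝ) ^ l) ^ m := by positivity
          have h3 := hVA 5 l
          have h4 := hVA (11 / 2) l
          linarith
      have hYl : ∀ n ∈ Y l, V (7 / 2 * (2 : ℝ) ^ l) ≤ n + κ ∧ (n : ℝ) + κ ≤ V (7 * (2 : ℝ) ^ l) := by
        intro n hn
        rw [hY] at hn
        simp only [mem_filter] at hn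
        exact hn.2.2
      have hpow2 : ((2 : ℝ) ^ l) ^ (m - σ) ≤ (C3 * N) ^ (1 - θ) := by
        calc ((2 : ℝ) ^ l) ^ (m - σ) = (((2 : ℝ) ^ l) ^ m) ^ (1 - θ) := by
              rw [← Real.rpow_mul hP0.le]
              congr 1
              rw [hθ]
              field_simp
          _ ≤ (C3 * N) ^ (1 - θ) := Real.rpow_le_rpow (by positivity) hpow (by linarith)
      have hr1 := hq1 S1 (by
        intro n hn x hx
        rw [hm1] at hn
        have h1 := (hYl n hn.1).1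
        have h2 := hn.2
        have h3 := abs_le.1 (hq3 x hx)
        have h4 := hgap2 l 3 (7 / 2) (by norm_num) (by norm_num)
        have h5 := hgap2 l (11 / 2) 6 (by norm_num) (by norm_num)
        have h6 := hVA (7 / 2) l
        have h7 := hVA (11 / 2) l
        have h8 : (3 / 2 * (((2 * A : ℕ) : ℝ) * (2 : ℝ) ^ l)) = 3 * (A * (2 : ℝ) ^ l) := by
          push_cast; ring
        have h9 : (3 * (((2 * A : ℕ) : ℝ) * (2 : ℝ) ^ l)) = 6 * (A * (2 : ℝ) ^ l) := by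
          push_cast; ring
        rw [h8, h9]
        constructor
        · linarith [h3.2]
        · linarith [h3.1]) (fun n hn => hlow n ((hm1 n).1 hn).1)
      have hr2 := hq2 S2 (by
        intro n hn x hx
        rw [hm2] at hn
        have h1 := (hYl n hn.1).2
        have h2 := hn.2
        have h3 := abs_le.1 (hq3 x hx)
        have h4 := hgap2 l (9 / 2) 5 (by norm_num) (by norm_num)
        have h5 := hgap2 l 7 9 (by norm_num) (by norm_num)
        have h6 := hVA 5 l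
        have h7 := hVA 7 l
        have h8 : (3 / 2 * (((3 * A : ℕ) : ℝ) * (2 : ℝ) ^ l)) = 9 / 2 * (A * (2 : ℝ) ^ l) := by
          push_cast; ring
        have h9 : (3 * (((3 * A : ℕ) : ℝ) * (2 : ℝ) ^ l)) = 9 * (A * (2 : ℝ) ^ l) := by
          push_cast; ring
        rw [h8, h9]
        constructor
        · linarith [h3.2]
        · linarith [h3.1]) (fun n hn => hlow n ((hm2 n).1 hn).1)
      have hcd := (Finset.card_le_card hhalf).trans (Finset.card_union_le _ _)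
      have hcd' : (#(Y l) : ℝ) ≤ (#S1 : ℝ) + (#S2 : ℝ) := by exact_mod_cast hcd
      linarith
  -- the small ones
  set W : Finset ℕ := Z.filter (fun n => (n : ℝ) + κ < V (7 / 2 * (2 : ℝ) ^ l1)) with hW
  have hWb : (#W : ℝ) ≤ C2 * (N : ℝ) ^ (1 / 2 : ℝ) + |κ| + 1 := by
    have hX0 : 0 ≤ C2 * (N : ℝ) ^ (1 / 2 : ℝ) + |κ| := by positivity
    have h1 : W ⊆ range (⌊C2 * (N : ℝ) ^ (1 / 2 : ℝ) + |κ|⌋₊ + 1) := by
      intro n hn
      rw [hW, mem_filter] at hn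
      rw [mem_range, Nat.lt_succ_iff]
      apply Nat.le_floor
      have h2 := (hgr l1 hl1b.le).2
      have h3 : 2 * v * (7 / 2) ^ m * ((2 : ℝ) ^ l1) ^ m ≤ C2 * (N : ℝ) ^ (1 / 2 : ℝ) := by
        rw [hC2, mul_assoc (2 * v * (7 / 2) ^ m)]
        exact mul_le_mul_of_nonneg_left hPl1 (by positivity)
      have h4 := neg_abs_le κ
      linarith [hn.2]
    have h2 := Finset.card_le_card h1
    rw [Finset.card_range] at h2
    have h3 : (#W : ℝ) ≤ (⌊C2 * (N : ℝ) ^ (1 / 2 : ℝ) + |κ|⌋₊ : ℝ) + 1 := by exact_mod_cast h2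
    have h4 := Nat.floor_le hX0
    linarith
  -- the union
  have hVtop : Tendsto (fun l : ℕ => V (7 / 2 * (2 : ℝ) ^ l)) atTop atTop := by
    apply tendsto_atTop_mono' atTop (f₁ := fun l : ℕ => v / 2 * ((2 : ℝ) ^ l) ^ m)
    · filter_upwards [eventually_ge_atTop l0] with l hl
      exact (hgr l hl).1
    · apply Tendsto.const_mul_atTop (by positivity)
      exact (tendsto_rpow_atTop hk0).comp hP
  have hcover : Z ⊆ W ∪ (range L).biUnion Y := by
    intro n hn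
    rw [mem_union]
    by_cases hnW : (n : ℝ) + κ < V (7 / 2 * (2 : ℝ) ^ l1)
    · left
      rw [hW, mem_filter]
      exact ⟨hn, hnW⟩
    · right
      push Not at hnW
      have hexl : ∃ l, l1 ≤ l ∧ (n : ℝ) + κ < V (7 / 2 * (2 : ℝ) ^ (l + 1)) := by
        have h1 := (tendsto_add_atTop_nat 1)
        have h2 := (hVtop.comp h1).eventually (eventually_gt_atTop ((n : ℝ) + κ))
        obtain ⟨l, h3, h4⟩ := (h2.and (eventually_ge_atTop l1)).exists
        exact ⟨l, h4, h3⟩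
      set l := Nat.find hexl with hldef
      obtain ⟨ha, hb⟩ := Nat.find_spec hexl
      rw [← hldef] at ha hb
      have hc : V (7 / 2 * (2 : ℝ) ^ l) ≤ n + κ := by
        rcases ha.eq_or_lt with h | h
        · rw [← h]
          exact hnW
        · have h1 := Nat.find_min hexl (m := l - 1) (by omega)
          push Not at h1
          have h2 := h1 (by omega)
          rw [show l - 1 + 1 = l by omega] at h2
          exact h2
      have hd : (n : ℝ) + κ ≤ V (7 * (2 : ℝ) ^ l) := by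
        refine hb.le.trans (le_of_eq ?_)
        congr 1
        rw [pow_succ]
        ring
      rw [mem_biUnion]
      refine ⟨l, ?_, ?_⟩
      · rw [mem_range, hL, Nat.lt_succ_iff]
        apply Nat.le_floor
        have h1 := hmem l n hn ha hc
        have h2 : (2 : ℝ) ^ l ≤ ((2 : ℝ) ^ l) ^ m := by
          have h3 : ((2 : ℝ) ^ l) ^ (1 : ℝ) ≤ ((2 : ℝ) ^ l) ^ m :=
            Real.rpow_le_rpow_of_exponent_le (one_le_pow₀ (by norm_num)) hm.le
          rwa [Real.rpow_one] at h3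
        have h3 := Real.log_le_log (by positivity) (h2.trans h1)
        rw [Real.log_pow] at h3
        have h4 : (1 / 2 : ℝ) ≤ Real.log 2 := by
          have := Real.log_two_gt_d9
          linarith
        have h5 : (l : ℝ) * (1 / 2) ≤ l * Real.log 2 :=
          mul_le_mul_of_nonneg_left h4 (Nat.cast_nonneg _)
        linarith
      · rw [hY]
        simp only [mem_filter]
        exact ⟨hn, ha, hc, hd⟩
  have hcard : (#Z : ℝ) ≤ #W + ∑ l ∈ range L, (#(Y l) : ℝ) := by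
    have h1 := (Finset.card_le_card hcover).trans (Finset.card_union_le _ _)
    have h2 := h1.trans (Nat.add_le_add_left Finset.card_biUnion_le _)
    exact_mod_cast h2
  have hsum : ∑ l ∈ range L, (#(Y l) : ℝ) ≤ L * (2 * (C3 * N) ^ (1 - θ)) := by
    refine (Finset.sum_le_sum fun l _ => hYb l).trans (le_of_eq ?_)
    rw [Finset.sum_const, card_range, nsmul_eq_mul]
  have hLb : (L : ℝ) ≤ 2 * Real.log (C3 * N) + 1 := by
    rw [hL]
    push_cast
    have h1 : 1 ≤ C3 * N := by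
      have : 1 ≤ C3 := by
        rw [hC3]
        have : 0 < (1 + |κ|) / (v / 2) := by positivity
        linarith
      nlinarith
    have h2 : 0 ≤ 2 * Real.log (C3 * N) := by
      have := Real.log_nonneg h1
      linarith
    linarith [Nat.floor_le h2]
  have hfin : (L : ℝ) * (2 * (C3 * N) ^ (1 - θ)) ≤
      2 * ((2 * Real.log (C3 * N) + 1) * (C3 * N) ^ (1 - θ)) := by
    have h1 : (L : ℝ) * (C3 * N) ^ (1 - θ) ≤ (2 * Real.log (C3 * N) + 1) * (C3 * N) ^ (1 - θ) :=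
      mul_le_mul_of_nonneg_right hLb (by positivity)
    linarith
  have hW0 : (#W : ℝ) ≤ 2 * (C2 * (N : ℝ) ^ (1 / 2 : ℝ) + |κ| + 1) := by
    have h1 : 0 ≤ C2 * (N : ℝ) ^ (1 / 2 : ℝ) + |κ| + 1 := by positivity
    linarith
  have hlast : 2 * (N : ℝ) ^ (1 - θ / 16) ≤ (N : ℝ) ^ (1 - θ / 32) := by
    have h1 : (N : ℝ) ^ (1 - θ / 32) = (N : ℝ) ^ (θ / 32) * (N : ℝ) ^ (1 - θ / 16) := by
      rw [← Real.rpow_add hN0]
      congr 1
      ring
    rw [h1]
    exact mul_le_mul_of_nonneg_right hN4 (by positivity)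
  linarith

end Pool.Agent.L7h97.EX
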