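import Pool.Agent.L7h27.EX.Stm
import Pool.Agent.L7h67.WA.Fin
import Pool.Agent.L7h37.EX.Core
import Pool.Agent.L7h97.EX.Fine2

/-!
# Project EX: all large real numbers (S_FINEX)
-/

set_option autoImplicit false

namespace Pool.Agent.L7h97.EX

open Finset MeasureTheory Filter
open Pool.Agent.L7h67.WA (gs ev_small ev_exp catch_seq)
open Pool.Agent.L7h27.EX
open Pool.Agent.L7h37.EX (s_COREX)

lemma exps (P w B δ σ τ m : ℝ) (hk : 1 < m) (hP : 1 ≤ P) (hσ : 0 < σ) (hw : w = P ^ (-(σ / 4)))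
    (hB : B = P ^ σ) (hτ1 : 1 ≤ τ) (hτ2 : τ ≤ P ^ (m + 1)) (hδ : δ = τ ^ (-(σ / (16 * m)))) :
    Real.exp (-(Real.pi * w ^ 2 * B ^ 2 / 2)) ≤ Real.exp (-(Real.pi / 2) * P ^ (σ / 4)) ∧
    Real.exp (-(Real.pi * (δ / w) ^ 2)) ≤ Real.exp (-(Real.pi / 2) * P ^ (σ / 4)) := by
  have hP0 : 0 < P := by linarith
  have hpi := Real.pi_pos
  constructor
  · apply Real.exp_le_exp.2
    have h1 : w ^ 2 * B ^ 2 = P ^ (3 * σ / 2) := by
      rw [hw, hB, ← Real.rpow_natCast, ← Real.rpow_natCast, ← Real.rpow_mul hP0.le,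
        ← Real.rpow_mul hP0.le, ← Real.rpow_add hP0]
      congr 1; push_cast; ring
    have h2 : P ^ (σ / 4) ≤ P ^ (3 * σ / 2) := Real.rpow_le_rpow_of_exponent_le hP (by linarith)
    have h3 : Real.pi * w ^ 2 * B ^ 2 / 2 = Real.pi / 2 * P ^ (3 * σ / 2) := by rw [← h1]; ring
    rw [h3]
    have h4 : Real.pi / 2 * P ^ (σ / 4) ≤ Real.pi / 2 * P ^ (3 * σ / 2) :=
      mul_le_mul_of_nonneg_left h2 (by positivity)
    linarith
  · apply Real.exp_le_exp.2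
    have h1 : P ^ (-(σ / 8)) ≤ δ := by
      rw [hδ]
      have h2 : (P ^ (m + 1)) ^ (-(σ / (16 * m))) ≤ τ ^ (-(σ / (16 * m))) := by
        apply Real.rpow_le_rpow_of_nonpos (by linarith) hτ2
        have : 0 < σ / (16 * m) := by positivity
        linarith
      refine le_trans ?_ h2
      rw [← Real.rpow_mul hP0.le]
      apply Real.rpow_le_rpow_of_exponent_le hP
      have h3 : (m + 1) * -(σ / (16 * m)) = -(σ * ((m + 1) / (16 * m))) := by ring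
      rw [h3]
      have h4 : (m + 1) / (16 * m) ≤ 1 / 8 := by
        rw [div_le_div_iff₀ (by positivity) (by norm_num)]; linarith
      nlinarith
    have h5 : P ^ (σ / 8) ≤ δ / w := by
      have hw0 : 0 < w := by rw [hw]; positivity
      rw [le_div_iff₀ hw0, hw, ← Real.rpow_add hP0]
      refine le_trans (le_of_eq ?_) h1
      congr 1; ring
    have h6 : P ^ (σ / 4) ≤ (δ / w) ^ 2 := by
      have h7 : P ^ (σ / 4) = (P ^ (σ / 8)) ^ 2 := by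
        rw [← Real.rpow_natCast, ← Real.rpow_mul hP0.le]; congr 1; push_cast; ring
      rw [h7]
      exact pow_le_pow_left₀ (by positivity) h5 2
    have h8 : 0 ≤ P ^ (σ / 4) := by positivity
    nlinarith

lemma GSg_small (φ : ℝ → ℝ) (a P : ℕ) (w τ δ : ℝ) (hw : 0 < w) (hδ : 0 ≤ δ)
    (h : ∀ z ∈ Ioc (a * P) (4 * (a * P)), δ ≤ |φ (z : ℝ) - τ|) :
    GSg φ a P w τ ≤ 3 * (a * P) * Real.exp (-(Real.pi * (δ / w) ^ 2)) := by
  unfold GSg
  have h1 : ∀ z ∈ Ioc (a * P) (4 * (a * P)), gs w (φ (z : ℝ) - τ) ≤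
      Real.exp (-(Real.pi * (δ / w) ^ 2)) := by
    intro z hz
    unfold gs
    apply Real.exp_le_exp.2
    apply neg_le_neg
    rw [mul_div_assoc, ← div_pow]
    apply mul_le_mul_of_nonneg_left _ Real.pi_pos.le
    rw [← sq_abs ((φ (z : ℝ) - τ) / w), abs_div, abs_of_pos hw]
    apply pow_le_pow_left₀ (by positivity)
    exact div_le_div_of_nonneg_right (h z hz) hw.le
  refine (sum_le_sum h1).trans ?_
  rw [sum_const, Nat.card_Ioc, show 4 * (a * P) - a * P = 3 * (a * P) by omega, nsmul_eq_mul]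
  push_cast
  linarith

/-- one block, one value of `a0` -/
lemma fine_block (m : ℝ) (hm : 1 < m) (σ : ℝ) (hσ0 : 0 < σ) (hσ4 : σ ≤ 1 / 4)
    (α β : Type) (XA : ℕ → Finset α) (XB : ℕ → Finset β) (GA : α → ℝ) (GB : β → ℝ)
    (hA : GoodBlkx m (σ / 4) α XA GA) (hB : GoodBlkx m (σ / 4) β XB GB) (a0 : ℕ) (ha0 : 1 ≤ a0)
    (hSup : ∀ᶠ P : ℕ in atTop, ∀ β : ℝ, |β| ≤ (P : ℝ) ^ σ →
      ‖WSg (fun u => u ^ m) a0 P β - WIg (fun u => u ^ m) a0 P β‖ ≤ (P : ℝ) ^ (1 - σ)) (M : ℕ) :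
    ∀ᶠ l : ℕ in atTop, ∀ τ : ℝ, 1 ≤ τ → τ ≤ ((2 : ℝ) ^ l) ^ (m + 1) →
      (∀ x ∈ XA l, ∀ y ∈ XB l, (3 / 2 * ((a0 : ℝ) * (2 : ℝ) ^ l)) ^ m ≤ τ - GA x - GB y ∧
        τ - GA x - GB y ≤ (3 * ((a0 : ℝ) * (2 : ℝ) ^ l)) ^ m) →
      ∃ x ∈ XA l, ∃ y ∈ XB l, ∃ z : ℕ, M ≤ z ∧
        |GA x + GB y + (z : ℝ) ^ m - τ| < τ ^ (-(σ / (16 * m))) := by
  obtain ⟨c, hc, hG⟩ := s_GILX m a0 hm ha0
  have hpow : Tendsto (fun l : ℕ => (2 : ℕ) ^ l) atTop atTop :=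
    tendsto_pow_atTop_atTop_of_one_lt (by norm_num)
  have E1 := hpow.eventually (eventually_ge_atTop (M + 1))
  have E2 := hpow.eventually hG
  have E3 := hpow.eventually hSup
  have E4 := hA.2.2
  have E5 := hB.2.2
  have E6 := hA.2.1
  have E6' := hB.2.1
  have E7 := hpow.eventually (ev_small 1 (c / 3) (σ / 2) (by linarith) (by linarith))
  have E8 := hpow.eventually (ev_exp (15 * a0) (c / 3) (m + σ / 4) (σ / 4) (by linarith) (by linarith))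
  filter_upwards [E1, E2, E3, E4, E5, E6, E6', E7, E8] with l e1 e2 e3 e4 e5 e6 e6' e7 e8 τ hτ1' hτP hrange
  by_contra hcon
  push Not at hcon
  obtain ⟨P, hP⟩ : ∃ P : ℕ, P = 2 ^ l := ⟨_, rfl⟩
  have hcastP : (2 : ℝ) ^ l = (P : ℝ) := by rw [hP]; push_cast; ring
  rw [hcastP] at e4 e5 hτP
  simp only [hcastP] at hrange
  rw [← hP] at e1 e2 e3 e7 e8
  have hPM : M ≤ P := by omega
  have hP1 : (1 : ℝ) ≤ P := by exact_mod_cast (by omega : 1 ≤ P)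
  have hP0 : (0 : ℝ) < P := by linarith
  obtain ⟨w, hw⟩ : ∃ w : ℝ, w = (P : ℝ) ^ (-(σ / 4)) := ⟨_, rfl⟩
  have hw0 : 0 < w := by rw [hw]; positivity
  have hw1 : w ≤ 1 := by rw [hw]; exact Real.rpow_le_one_of_one_le_of_nonpos hP1 (by linarith)
  obtain ⟨δ, hδ⟩ : ∃ δ : ℝ, δ = τ ^ (-(σ / (16 * m))) := ⟨_, rfl⟩
  have hδ0 : 0 ≤ δ := by rw [hδ]; positivity
  obtain ⟨x1, x2⟩ := exps P w ((P : ℝ) ^ σ) δ σ τ m hm hP1 hσ0 hw rfl hτ1' hτP hδ
  obtain ⟨E, hE⟩ : ∃ E : ℝ, E = Real.exp (-(Real.pi / 2) * (P : ℝ) ^ (σ / 4)) := ⟨_, rfl⟩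
  have hE0 : 0 < E := by rw [hE]; exact Real.exp_pos _
  rw [← hE] at x1 x2 e8
  obtain ⟨NA, hNA⟩ : ∃ NA : ℝ, NA = (#(XA l) : ℝ) := ⟨_, rfl⟩
  obtain ⟨NB, hNB⟩ : ∃ NB : ℝ, NB = (#(XB l) : ℝ) := ⟨_, rfl⟩
  have hNA0 : 0 < NA := by rw [hNA]; exact_mod_cast e6.card_pos
  have hNB0 : 0 < NB := by rw [hNB]; exact_mod_cast e6'.card_pos
  rw [← hNA] at e4
  rw [← hNB] at e5
  -- the core estimate
  have hcore := s_COREX α β (XA l) (XB l) GA GB
    (fun u => u ^ m) a0 P w ((P : ℝ) ^ σ) ((P : ℝ) ^ (1 - σ)) (NA ^ 2 * (P : ℝ) ^ (-m + σ / 4))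
    (NB ^ 2 * (P : ℝ) ^ (-m + σ / 4)) τ
    (cont_pow m (by linarith)) hw0 hw1 (by positivity) (by positivity) e3 e4 e5
  rw [← hNA, ← hNB] at hcore
  have hsq : Real.sqrt (NA ^ 2 * (P : ℝ) ^ (-m + σ / 4) * (NB ^ 2 * (P : ℝ) ^ (-m + σ / 4))) =
      NA * NB * (P : ℝ) ^ (-m + σ / 4) := by
    rw [show NA ^ 2 * (P : ℝ) ^ (-m + σ / 4) * (NB ^ 2 * (P : ℝ) ^ (-m + σ / 4)) =
      (NA * NB * (P : ℝ) ^ (-m + σ / 4)) ^ 2 by ring]
    exact Real.sqrt_sq (by positivity)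
  rw [hsq] at hcore
  have hmain : NA * NB * (c * w / (P : ℝ) ^ (m - 1)) ≤
      ∑ x ∈ XA l, ∑ y ∈ XB l, GIg (fun u => u ^ m) a0 P w (τ - GA x - GB y) := by
    have h1 : ∀ x ∈ XA l, NB * (c * w / (P : ℝ) ^ (m - 1)) ≤
        ∑ y ∈ XB l, GIg (fun u => u ^ m) a0 P w (τ - GA x - GB y) := by
      intro x hx
      have h2 : ∀ y ∈ XB l, c * w / (P : ℝ) ^ (m - 1) ≤ GIg (fun u => u ^ m) a0 P w (τ - GA x - GB y) :=
        fun y hy => e2 w hw0 hw1 _ (hrange x hx y hy).1 (hrange x hx y hy).2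
      have h3 := sum_le_sum h2
      rw [sum_const, nsmul_eq_mul, ← hNB] at h3
      exact h3
    have h4 := sum_le_sum h1
    rw [sum_const, nsmul_eq_mul, ← hNA, ← mul_assoc] at h4
    exact h4
  have hGS : ∑ x ∈ XA l, ∑ y ∈ XB l, GSg (fun u => u ^ m) a0 P w (τ - GA x - GB y) ≤
      NA * NB * (3 * (a0 * P) * E) := by
    have h1 : ∀ x ∈ XA l, ∑ y ∈ XB l, GSg (fun u => u ^ m) a0 P w (τ - GA x - GB y) ≤
        NB * (3 * (a0 * P) * E) := by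
      intro x hx
      have h2 : ∀ y ∈ XB l, GSg (fun u => u ^ m) a0 P w (τ - GA x - GB y) ≤ 3 * (a0 * P) * E := by
        intro y hy
        refine (GSg_small (fun u => u ^ m) a0 P w _ δ hw0 hδ0 ?_).trans ?_
        · intro z hz
          rw [mem_Ioc] at hz
          have hz2 : P ≤ z := by
            have : 1 * P ≤ a0 * P := Nat.mul_le_mul_right P ha0
            omega
          have h3 := hcon x hx y hy z (hPM.trans hz2)
          rw [hδ]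
          refine h3.trans (le_of_eq ?_)
          congr 1; ring
        · exact mul_le_mul_of_nonneg_left x2 (by positivity)
      refine (sum_le_sum h2).trans ?_
      rw [sum_const, nsmul_eq_mul, hNB]
    refine (sum_le_sum h1).trans ?_
    rw [sum_const, nsmul_eq_mul, ← hNA]
    exact le_of_eq (by ring)
  simp only [sum_sub_distrib] at hcore
  have hab := (abs_le.1 hcore).1
  have h10 : 12 * (NA * NB * (a0 * P)) *
      Real.exp (-(Real.pi * w ^ 2 * ((P : ℝ) ^ σ) ^ 2 / 2)) ≤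
      12 * (NA * NB * (a0 * P)) * E :=
    mul_le_mul_of_nonneg_left x1 (by positivity)
  have h11 : NA * NB * (c * w / (P : ℝ) ^ (m - 1)) ≤
      (P : ℝ) ^ (1 - σ) * (NA * NB * (P : ℝ) ^ (-m + σ / 4)) +
      15 * (NA * NB * (a0 * P)) * E := by linarith
  have hNN : 0 < NA * NB := by positivity
  have h12 : c * w / (P : ℝ) ^ (m - 1) ≤
      (P : ℝ) ^ (1 - σ) * (P : ℝ) ^ (-m + σ / 4) + 15 * (a0 * P) * E := by
    have h13 : NA * NB * (c * w / (P : ℝ) ^ (m - 1)) ≤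
        NA * NB * ((P : ℝ) ^ (1 - σ) * (P : ℝ) ^ (-m + σ / 4) + 15 * (a0 * P) * E) := by
      refine h11.trans (le_of_eq (by ring))
    exact le_of_mul_le_mul_left h13 hNN
  -- normalize
  obtain ⟨Z, hZ⟩ : ∃ Z : ℝ, Z = (P : ℝ) ^ (1 - m - σ / 4) := ⟨_, rfl⟩
  have hZ0 : 0 < Z := by rw [hZ]; positivity
  have z1 : w / (P : ℝ) ^ (m - 1) = Z := by
    rw [hw, hZ, ← Real.rpow_sub hP0]
    congr 1
    ring
  have z2 : (P : ℝ) ^ (1 - σ) * (P : ℝ) ^ (-m + σ / 4) = Z * (P : ℝ) ^ (-(σ / 2)) := by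
    rw [hZ, ← Real.rpow_add hP0, ← Real.rpow_add hP0]; congr 1; ring
  have z3 : (P : ℝ) = Z * (P : ℝ) ^ (m + σ / 4) := by
    rw [hZ, ← Real.rpow_add hP0]
    have : 1 - m - σ / 4 + (m + σ / 4) = 1 := by ring
    rw [this, Real.rpow_one]
  have h14 : c * Z ≤ Z * (P : ℝ) ^ (-(σ / 2)) +
      Z * (15 * a0 * ((P : ℝ) ^ (m + σ / 4) * E)) := by
    calc c * Z = c * w / (P : ℝ) ^ (m - 1) := by rw [← z1]; ring
      _ ≤ _ := h12
      _ = Z * (P : ℝ) ^ (-(σ / 2)) + 15 * (a0 * P) * E := by rw [z2]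
      _ = Z * (P : ℝ) ^ (-(σ / 2)) + 15 * (a0 * (Z * (P : ℝ) ^ (m + σ / 4))) * E := by
        rw [← z3]
      _ = _ := by ring
  rw [one_mul] at e7
  nlinarith

/-- gaps between values at multiples of `P` -/
lemma ev_gap (m : ℝ) (hm : 1 < m) (A C s s' : ℝ) (hs : 1 ≤ s) (hss : s + 1 / 2 ≤ s')
    (hA1 : 1 ≤ A) (hC : 0 ≤ C) (hA : 2 * C ≤ A) (P : ℝ) (hP : 1 ≤ P) :
    (s * (A * P)) ^ m + C * P ^ m ≤ (s' * (A * P)) ^ m := by
  have hP0 : 0 < P := by linarith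
  have hAP : P ≤ A * P := by nlinarith
  have h1 := gap m hm (s * (A * P)) (s' * (A * P)) (by nlinarith) (by nlinarith)
  have h2 : (A * P) ^ (m - 1) ≤ (s * (A * P)) ^ (m - 1) :=
    Real.rpow_le_rpow (by positivity) (by nlinarith) (by linarith)
  have h3 : P ^ (m - 1) ≤ (A * P) ^ (m - 1) := Real.rpow_le_rpow hP0.le hAP (by linarith)
  have h4 : 1 / 2 * (A * P) ≤ s' * (A * P) - s * (A * P) := by nlinarith
  have h5 : P ^ m = P ^ (m - 1) * P := by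
    rw [← Real.rpow_add_one hP0.ne']
    congr 1
    ring
  have h6 : C * P ^ m ≤ (s * (A * P)) ^ (m - 1) * (s' * (A * P) - s * (A * P)) := by
    calc C * P ^ m = (C * P) * P ^ (m - 1) := by rw [h5]; ring
      _ ≤ (A / 2 * P) * P ^ (m - 1) := by
          apply mul_le_mul_of_nonneg_right _ (by positivity)
          nlinarith
      _ = P ^ (m - 1) * (1 / 2 * (A * P)) := by ring
      _ ≤ (s * (A * P)) ^ (m - 1) * (s' * (A * P) - s * (A * P)) := by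
          apply mul_le_mul _ h4 (by positivity) (by positivity)
          exact (h3.trans h2)
  linarith

theorem s_FINEX : S_FINEX := by
  intro m σ hm hσ0 hσ4 hSup α β XA XB GA GB hA hB M
  have hk0 : (0 : ℝ) < m := by linarith
  obtain ⟨CA, hCA⟩ := hA.1
  obtain ⟨CB, hCB⟩ := hB.1
  obtain ⟨C, hC⟩ : ∃ C : ℝ, C = |CA| + |CB| := ⟨_, rfl⟩
  obtain ⟨A, hA2⟩ := exists_nat_gt (2 * C + 1)
  have hC0 : 0 ≤ C := by rw [hC]; positivity
  have hA1 : (1 : ℝ) ≤ A := by linarith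
  have hA1' : 1 ≤ A := by exact_mod_cast hA1
  have hA3 : 2 * C ≤ A := by linarith
  have hA0 : (0 : ℝ) < A := by linarith
  have hpow : Tendsto (fun l : ℕ => (2 : ℕ) ^ l) atTop atTop :=
    tendsto_pow_atTop_atTop_of_one_lt (by norm_num)
  have B1 := fine_block m hm σ hσ0 hσ4 α β XA XB GA GB hA hB (2 * A) (by omega)
    (hSup (2 * A) (by omega)) M
  have B2 := fine_block m hm σ hσ0 hσ4 α β XA XB GA GB hA hB (3 * A) (by omega)
    (hSup (3 * A) (by omega)) M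
  have hpowR : Tendsto (fun l : ℕ => (2 : ℝ) ^ l) atTop atTop :=
    tendsto_pow_atTop_atTop_of_one_lt (by norm_num)
  have hH' := hpowR.eventually_ge_atTop ((9 * (A : ℝ)) ^ m)
  obtain ⟨H, hHdef⟩ : ∃ H : ℕ → ℝ, ∀ l, H l = (7 / 2 * ((A : ℝ) * (2 : ℝ) ^ l)) ^ m := ⟨_, fun l => rfl⟩
  have hHt : Tendsto H atTop atTop := by
    have h1 : Tendsto (fun l : ℕ => 7 / 2 * ((A : ℝ) * (2 : ℝ) ^ l)) atTop atTop :=
      Tendsto.const_mul_atTop (by norm_num) (Tendsto.const_mul_atTop hA0 hpowR)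
    refine ((tendsto_rpow_atTop hk0).comp h1).congr (fun l => ?_)
    rw [hHdef]
    rfl
  have E9 := hHt.eventually (eventually_ge_atTop 1)
  obtain ⟨l₀, hl₀⟩ := eventually_atTop.1 ((eventually_ge_atTop M).and (hCA.and (hCB.and
    (B1.and (B2.and (hH'.and E9))))))
  filter_upwards [catch_seq H hHt l₀] with τ hτ
  obtain ⟨l, hl, hτ1, hτ2⟩ := hτ
  obtain ⟨m1, cA, cB, b1, b2, hup, h1⟩ := hl₀ l hl
  rw [hHdef] at hτ2
  obtain ⟨P, hP⟩ : ∃ P : ℝ, P = (2 : ℝ) ^ l := ⟨_, rfl⟩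
  rw [← hP] at hup b1 b2 cA cB
  have hP1 : 1 ≤ P := by rw [hP]; exact one_le_pow₀ (by norm_num)
  have hP0 : 0 < P := by linarith
  have g1 := ev_gap m hm A C 3 (7 / 2) (by norm_num) (by norm_num) hA1 hC0 hA3 P hP1
  have g2 := ev_gap m hm A C (11 / 2) 6 (by norm_num) (by norm_num) hA1 hC0 hA3 P hP1
  have g3 := ev_gap m hm A C (9 / 2) 5 (by norm_num) (by norm_num) hA1 hC0 hA3 P hP1
  have g4 := ev_gap m hm A C 8 9 (by norm_num) (by norm_num) hA1 hC0 hA3 P hP1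
  have g5 := ev_gap m hm A C 5 (11 / 2) (by norm_num) (by norm_num) hA1 hC0 hA3 P hP1
  have g6 := ev_gap m hm A C 7 8 (by norm_num) (by norm_num) hA1 hC0 hA3 P hP1
  have hPk : 0 < P ^ m := by positivity
  have hCP : 0 ≤ C * P ^ m := by positivity
  have hτ1' : 1 ≤ τ := h1.trans hτ1
  rw [hHdef, ← hP] at hτ1
  have hτ2' : τ ≤ (7 * (A * P)) ^ m := by
    refine hτ2.trans (le_of_eq ?_)
    congr 1
    rw [pow_succ, ← hP]; ring
  have hup' : (9 * (A * P)) ^ m ≤ P ^ (m + 1) := by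
    have h2 : (9 * ((A : ℝ) * P)) ^ m = (9 * (A : ℝ)) ^ m * P ^ m := by
      rw [← mul_assoc, Real.mul_rpow (by positivity) hP0.le]
    rw [h2, Real.rpow_add_one hP0.ne', mul_comm]
    exact mul_le_mul_of_nonneg_left hup hPk.le
  have hτP : τ ≤ P ^ (m + 1) := by linarith
  have hGG : ∀ x ∈ XA l, ∀ y ∈ XB l, |GA x + GB y| ≤ C * P ^ m := by
    intro x hx y hy
    refine (abs_add_le _ _).trans ?_
    rw [hC, add_mul]
    have h2 := cA x hx
    have h3 := cB y hy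
    have h4 : CA * P ^ m ≤ |CA| * P ^ m := mul_le_mul_of_nonneg_right (le_abs_self _) hPk.le
    have h5 : CB * P ^ m ≤ |CB| * P ^ m := mul_le_mul_of_nonneg_right (le_abs_self _) hPk.le
    linarith
  rcases le_or_gt τ ((11 / 2 * (A * P)) ^ m) with hle | hgt
  · obtain ⟨x, hx, y, hy, z, hz, h⟩ := b1 τ hτ1' hτP (by
      intro x hx y hy
      have h2 := abs_le.1 (hGG x hx y hy)
      have e1 : (3 / 2 * (((2 * A : ℕ) : ℝ) * P)) ^ m = (3 * (A * P)) ^ m := by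
        congr 1; push_cast; ring
      have e2 : (3 * (((2 * A : ℕ) : ℝ) * P)) ^ m = (6 * (A * P)) ^ m := by
        congr 1; push_cast; ring
      rw [e1, e2]
      constructor <;> linarith [h2.1, h2.2])
    exact ⟨l, m1, x, hx, y, hy, z, hz, h⟩
  · obtain ⟨x, hx, y, hy, z, hz, h⟩ := b2 τ hτ1' hτP (by
      intro x hx y hy
      have h2 := abs_le.1 (hGG x hx y hy)
      have e1 : (3 / 2 * (((3 * A : ℕ) : ℝ) * P)) ^ m = (9 / 2 * (A * P)) ^ m := by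
        congr 1; push_cast; ring
      have e2 : (3 * (((3 * A : ℕ) : ℝ) * P)) ^ m = (9 * (A * P)) ^ m := by
        congr 1; push_cast; ring
      rw [e1, e2]
      constructor <;> linarith [h2.1, h2.2])
    exact ⟨l, m1, x, hx, y, hy, z, hz, h⟩

end Pool.Agent.L7h97.EX
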